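import Mathlib
import Pool.Agent.N720.SL.A5
import Pool.Agent.N306.CY.Two
import Pool.Agent.N400.CYRL
set_option autoImplicit false

/-!
# Stein's restriction conjecture on cylinders over fractal sets

Let `n = m + k ≥ 2`, `k ≥ 1`, let `σ` be the surface measure on the unit sphere `S^{n-1}` and let
`ft f ξ = ∫ e^{-2πi x·ξ} f(x) dσ(x)` be the Fourier transform of the measure `f dσ`. Let
`ι : ℝ^m → ℝ^n` and `κ : ℝ^k → ℝ^n` be linear isometries with orthogonal images (so every `ξ ∈ ℝ^n` is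
`ι y + κ w` for exactly one pair `(y, w)`), and let `ν` be a Borel measure on `ℝ^k` with
`ν(B(w, R)) ≤ A R^α` for all balls of radius `R ≥ 1` (for example the counting measure on a locally
finite set, or Lebesgue measure on its unit neighbourhood).

**Theorem.** Let `s ≥ 2`. Then, with a constant which depends only on `m, k, α, A, s, q`,
`∫ ∫_{ℝ^m} |ft f (ι y + κ w)|^q dy dν(w) ≤ C ‖f‖_{L^s(σ)}^q` for all `f ∈ L^s(σ)` and all
`q > 2 + 4/(n-1) · min(1, max(0, α - (k-1)/2, 1 + α/2 - k + k/s))`.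

In particular, for `α = k/2` (half-dimensional `ν`) one has the whole range `q > 2n/(n-1)` of Stein's
conjecture, for every codimension `k = 1, ..., n`, with densities in `L⁴(σ)`, and in `L²(σ)` if `k ≥ 2`.
For instance the Fourier transform of `f dσ`, `f ∈ L⁴(σ)`, is in `L^q`, `q > 2n/(n-1)`, of the union of
the hyperplanes `ξ_n = j²`, `j ∈ ℕ`, or of their unit neighbourhoods.

For `s = 2` and `k ∈ {1, 2}`, `0 < α ≤ 1` the critical exponent is `q_c = 2 + 2(α - k + 2)/(n-1)`, so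
`2(n+α)/(n-1)` for `k = 1`: there the weak type inequality holds, and for `q < q_c` the inequality fails
whenever `ν(B(0,R)) ≥ c R^α` for arbitrarily large `R`. For all `ν ≠ 0` it fails for `q < 2`, even for
bounded densities; so the exponent `2`, which is critical for `α ≤ (k-1)/2` and
`α/2 ≤ k - 1 - k/s`, is optimal for every `s`.

The case `α = k` of the theorem (`ν` = Lebesgue measure) is the theorem of Stein and Tomas, up to the
endpoint. The proof adds to the argument of Tomas (i) a splitting of the surface measure, multiplied by a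
weight which vanishes near the directions orthogonal to `κ`, into a part of small Fourier transform and
thickened measures, and (ii) sharp bounds for the Fourier transforms of `g dν` on thin annuli in `ℝ^k`;
by Plancherel in `ℝ^m` the annuli are the sections of thin shells.

Parts of the formal proof are due to the seats helper306, 319, 327, 400, 415, 521, 545, 603, 614, 702,
951.
-/

namespace Pool.Agent.Results.MP_6cbfb8_an.Cylinders

open MeasureTheory Set Metric Complex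
open scoped ENNReal NNReal RealInnerProductSpace

abbrev E (n : ℕ) := EuclideanSpace ℝ (Fin n)

/-- surface measure on the unit sphere -/
noncomputable def sigma (n : ℕ) : Measure (sphere (0 : E n) 1) := (volume : Measure (E n)).toSphere

/-- the Fourier transform of the measure `f dσ` -/
noncomputable def ft {n : ℕ} (f : sphere (0 : E n) 1 → ℂ) (ξ : E n) : ℂ :=
  ∫ x, Complex.exp (-(2 * Real.pi * ⟪(x : E n), ξ⟫ : ℝ) * I) * f x ∂(sigma n)

/-- `ν (B(w,R)) ≤ A R^α` for all balls of radius `R ≥ 1` -/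
def Growth {k : ℕ} (α A : ℝ) (ν : Measure (E k)) : Prop :=
  ∀ (w : E k) (R : ℝ), 1 ≤ R → ν (ball w R) ≤ ENNReal.ofReal (A * R ^ α)

/-- Orthogonal coordinates `(y, w)` of `ℝ^(m+k)`: linear isometries `ι : ℝ^m → ℝ^(m+k)` and
`κ : ℝ^k → ℝ^(m+k)` with orthogonal images. -/
structure Coord (m k : ℕ) where
  ι : E m →ₗᵢ[ℝ] E (m + k)
  κ : E k →ₗᵢ[ℝ] E (m + k)
  orth : ∀ y w, ⟪ι y, κ w⟫ = 0

/-- the inequality `∫ ∫ |ft f (ι y + κ w)|^q dy dν(w) ≤ C ‖f‖_{L^s(σ)}^q` for all `f ∈ L^s(σ)` -/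
def Ineq {m k : ℕ} (s : ℝ≥0∞) (q : ℝ) (C : ℝ≥0) (c : Coord m k) (ν : Measure (E k)) : Prop :=
  ∀ f : sphere (0 : E (m + k)) 1 → ℂ, MemLp f s (sigma (m + k)) →
    ∫⁻ w, (∫⁻ y : E m, ‖ft f (c.ι y + c.κ w)‖ₑ ^ q) ∂ν ≤ C * eLpNorm f s (sigma (m + k)) ^ q

/-- the same inequality for Lebesgue measure on the region `ι(ℝ^m) + κ(W)` -/
def OnRegion {m k : ℕ} (s : ℝ≥0∞) (q : ℝ) (C : ℝ≥0) (c : Coord m k) (W : Set (E k)) : Prop :=
  ∀ f : sphere (0 : E (m + k)) 1 → ℂ, MemLp f s (sigma (m + k)) →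
    ∫⁻ ξ in {ξ | ∃ y, ∃ w ∈ W, ξ = c.ι y + c.κ w}, ‖ft f ξ‖ₑ ^ q ≤
      C * eLpNorm f s (sigma (m + k)) ^ q

/-- the same inequality for the parallel affine subspaces `ι(ℝ^m) + κ(w)`, `w ∈ P` -/
def OnPlanes {m k : ℕ} (s : ℝ≥0∞) (q : ℝ) (C : ℝ≥0) (c : Coord m k) (P : Set (E k)) : Prop :=
  ∀ f : sphere (0 : E (m + k)) 1 → ℂ, MemLp f s (sigma (m + k)) →
    ∑' w : P, ∫⁻ y : E m, ‖ft f (c.ι y + c.κ w)‖ₑ ^ q ≤ C * eLpNorm f s (sigma (m + k)) ^ q

/-- at most `A R^a` points of `P` in every ball of radius `R ≥ 1` -/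
def Points {k : ℕ} (a A : ℝ) (P : Set (E k)) : Prop :=
  ∀ (w : E k) (R : ℝ), 1 ≤ R → ((P ∩ ball w R).encard : ℝ≥0∞) ≤ ENNReal.ofReal (A * R ^ a)

/-- the weak type inequality `(dy dν){|ft f| > t} ≤ C (‖f‖_{L²(σ)} / t)^p` for all `f ∈ L²(σ)` -/
def WeakIneq {m k : ℕ} (p : ℝ) (C : ℝ≥0) (c : Coord m k) (ν : Measure (E k)) : Prop :=
  ∀ f : sphere (0 : E (m + k)) 1 → ℂ, MemLp f 2 (sigma (m + k)) → ∀ t : ℝ≥0, 0 < t →
    ((volume : Measure (E m)).prod ν) {z | (t : ℝ≥0∞) < ‖ft f (c.ι z.1 + c.κ z.2)‖ₑ} ≤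
      C * (eLpNorm f 2 (sigma (m + k)) / t) ^ p

/-- `ν (B(0,R)) ≥ b R^α` for arbitrarily large `R` -/
def Large {k : ℕ} (α b : ℝ) (ν : Measure (E k)) : Prop :=
  ∀ R₀ : ℝ, ∃ R : ℝ, R₀ ≤ R ∧ ENNReal.ofReal (b * R ^ α) ≤ ν (ball 0 R)

/-- `2 + 4/(n-1) · min(1, max(0, α - (k-1)/2, 1 + α/2 - k + k/s))`, `n = m + k` -/
noncomputable def crit (m k : ℕ) (α : ℝ) (s : ℝ≥0∞) : ℝ :=
  2 + 4 / ((m : ℝ) + k - 1) *
    min 1 (max 0 (max (α - (k - 1) / 2) (1 + α / 2 - k + k * (s⁻¹).toReal)))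

/-- `2 + 2(α - k + 2)/(n-1)`, `n = m + k` -/
noncomputable def qc (m k : ℕ) (α : ℝ) : ℝ := 2 + 2 * (α - k + 2) / ((m : ℝ) + k - 1)

open Pool.Agent.N720.SL (TT ex)

lemma sg_map (n : ℕ) : Pool.Agent.H789R2.FR.sg n = (sigma n).map Subtype.val := rfl

lemma emb (n : ℕ) : MeasurableEmbedding (Subtype.val : sphere (0 : E n) 1 → E n) :=
  MeasurableEmbedding.subtype_coe isClosed_sphere.measurableSet

lemma ft_restrict {n : ℕ} (F : E n → ℂ) (ξ : E n) :
    ft (fun x : sphere (0 : E n) 1 => F x) ξ =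
      ∫ x, F x * ex (-⟪x, ξ⟫) ∂(Pool.Agent.H789R2.FR.sg n) := by
  rw [sg_map, (emb n).integral_map]
  unfold ft
  refine integral_congr_ae (Filter.Eventually.of_forall fun x => ?_)
  simp only
  unfold ex
  rw [mul_comm]
  congr 2
  push_cast
  ring

lemma exists_ext {n : ℕ} (f : sphere (0 : E n) 1 → ℂ) :
    ∃ F : E n → ℂ, (fun x : sphere (0 : E n) 1 => F x) = f := by
  classical
  refine ⟨fun y => if h : y ∈ sphere (0 : E n) 1 then f ⟨y, h⟩ else 0, ?_⟩
  ext x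
  simp only
  rw [dif_pos x.2]

lemma norm_restrict {n : ℕ} (F : E n → ℂ) (s : ℝ≥0∞) :
    eLpNorm F s (Pool.Agent.H789R2.FR.sg n) =
      eLpNorm (fun x : sphere (0 : E n) 1 => F x) s (sigma n) := by
  rw [sg_map, (emb n).eLpNorm_map_measure]
  rfl

lemma memLp_restrict {n : ℕ} (F : E n → ℂ) (s : ℝ≥0∞) :
    MemLp F s (Pool.Agent.H789R2.FR.sg n) ↔
      MemLp (fun x : sphere (0 : E n) 1 => F x) s (sigma n) := by
  rw [sg_map, (emb n).memLp_map_measure_iff]
  rfl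

variable {m k : ℕ}

/-- transfer of the upper bounds -/
lemma ineq_of (s : ℝ≥0∞) (q : ℝ) (C : ℝ≥0) (c : Coord m k) (ν : Measure (E k))
    (h : ∀ f : E (m + k) → ℂ, MemLp f s (Pool.Agent.H789R2.FR.sg (m + k)) →
      ∫⁻ w, (∫⁻ y : E m, ‖TT c.ι c.κ f (y, w)‖ₑ ^ q) ∂ν ≤
        C * eLpNorm f s (Pool.Agent.H789R2.FR.sg (m + k)) ^ q) : Ineq s q C c ν := by
  intro f hf
  obtain ⟨F, rfl⟩ := exists_ext f
  have h1 := h F ((memLp_restrict F s).2 hf)
  rw [norm_restrict] at h1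
  simp_rw [ft_restrict]
  exact h1

lemma general (hk : 1 ≤ k) (hn : 2 ≤ m + k) (s : ℝ≥0∞) (hs : 2 ≤ s) (α A q : ℝ) (hα : 0 ≤ α)
    (hq : crit m k α s < q) :
    ∃ C : ℝ≥0, ∀ (c : Coord m k) (ν : Measure (E k)), Growth α A ν → Ineq s q C c ν := by
  unfold crit at hq
  obtain ⟨C, hC⟩ := Pool.Agent.N720.SL.strong' (m := m) hk hn α hα s hs A q (by push_cast; exact hq)
  exact ⟨C, fun c ν hν => ineq_of s q C c ν (hC c.ι c.κ c.orth ν hν)⟩

lemma half (hk : 1 ≤ k) (hn : 2 ≤ m + k) (s : ℝ≥0∞) (hs : 4 ≤ s ∨ 2 ≤ k ∧ 2 ≤ s) (A q : ℝ)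
    (hq : 2 * ((m : ℝ) + k) / ((m : ℝ) + k - 1) < q) :
    ∃ C : ℝ≥0, ∀ (c : Coord m k) (ν : Measure (E k)), Growth (k / 2) A ν → Ineq s q C c ν := by
  have hnR : (2 : ℝ) ≤ (m : ℝ) + k := by exact_mod_cast hn
  have hkR : (1 : ℝ) ≤ (k : ℝ) := by exact_mod_cast hk
  have hs2 : 2 ≤ s := by
    rcases hs with h | h
    · exact le_trans (by norm_num) h
    · exact h.2
  refine general hk hn s hs2 (k / 2) A q (by positivity) (lt_of_le_of_lt ?_ hq)
  have hn1 : (0 : ℝ) < (m : ℝ) + k - 1 := by linarith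
  have hmax : max 0 (max ((k : ℝ) / 2 - (k - 1) / 2)
      (1 + (k : ℝ) / 2 / 2 - k + k * (s⁻¹).toReal)) ≤ 1 / 2 := by
    refine max_le (by norm_num) (max_le (le_of_eq (by ring)) ?_)
    rcases hs with h | h
    · have h1 : (s⁻¹).toReal ≤ 1 / 4 := by
        have h2 := ENNReal.toReal_mono (by simp) (ENNReal.inv_le_inv.2 h)
        simpa using h2
      nlinarith
    · have h1 : (s⁻¹).toReal ≤ 1 / 2 := by
        have h2 := ENNReal.toReal_mono (by simp) (ENNReal.inv_le_inv.2 h.2)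
        simpa using h2
      have hk2 : (2 : ℝ) ≤ (k : ℝ) := by exact_mod_cast h.1
      nlinarith
  unfold crit
  calc _ ≤ 2 + 4 / ((m : ℝ) + k - 1) * (1 / 2) := by
        have h4 : (0 : ℝ) ≤ 4 / ((m : ℝ) + k - 1) := by positivity
        have := mul_le_mul_of_nonneg_left ((min_le_right 1 _).trans hmax) h4
        linarith
    _ = 2 * ((m : ℝ) + k) / ((m : ℝ) + k - 1) := by field_simp; ring

/-- the region over `W` -/
lemma region_eq (ι : E m →ₗᵢ[ℝ] E (m + k)) (κ : E k →ₗᵢ[ℝ] E (m + k))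
    (ho : ∀ y w, ⟪ι y, κ w⟫ = 0)
    (W : Set (E k)) (F : E (m + k) → ℝ≥0∞) (hF : Measurable F) :
    ∫⁻ ξ in {ξ | ∃ y, ∃ w ∈ W, ξ = ι y + κ w}, F ξ =
      ∫⁻ w in W, ∫⁻ y : E m, F (ι y + κ w) := by
  have hmp := Pool.Agent.N545.CYSLICE.Phi_mp ι κ ho
  set Φ := Pool.Agent.N545.CYSLICE.Phi ι κ ho with hΦ
  have hΦa : ∀ p, Φ p = ι p.1 + κ p.2 := fun p => Pool.Agent.N545.CYSLICE.Phi_apply ι κ ho p
  have hset : {ξ | ∃ y, ∃ w ∈ W, ξ = ι y + κ w} = Φ '' (univ ×ˢ W) := by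
    ext ξ
    constructor
    · rintro ⟨y, w, hw, rfl⟩
      exact ⟨(y, w), ⟨mem_univ _, hw⟩, hΦa _⟩
    · rintro ⟨⟨y, w⟩, ⟨_, hw⟩, rfl⟩
      exact ⟨y, w, hw, hΦa _⟩
  rw [hset, ← hmp.setLIntegral_comp_emb Φ.measurableEmbedding]
  simp_rw [hΦa]
  have h1 : (volume : Measure (E m × E k)).restrict (univ ×ˢ W) =
      (volume : Measure (E m)).prod ((volume : Measure (E k)).restrict W) := by
    rw [Measure.volume_eq_prod, ← Measure.prod_restrict, Measure.restrict_univ]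
  rw [h1, lintegral_prod_symm']
  refine hF.comp ?_
  fun_prop

/-- the counting measure on `P` -/
lemma count_growth (P : Set (E k)) (a A : ℝ) (hP : Points a A P) :
    P.Countable ∧ Growth a A ((Measure.count : Measure (E k)).restrict P) := by
  have hfin : ∀ (w : E k) (R : ℝ), 1 ≤ R → (P ∩ ball w R).Finite := by
    intro w R hR
    by_contra hinf
    have h1 := hP w R hR
    have h2 : (P ∩ ball w R).encard = ⊤ := Set.Infinite.encard_eq hinf
    rw [h2] at h1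
    simp at h1
  refine ⟨?_, ?_⟩
  · have h1 : P = ⋃ n : ℕ, P ∩ ball 0 ((n : ℝ) + 1) := by
      ext x
      simp only [mem_iUnion, mem_inter_iff, mem_ball_zero_iff]
      constructor
      · intro hx
        obtain ⟨n, hn⟩ := exists_nat_gt ‖x‖
        exact ⟨n, hx, by linarith⟩
      · rintro ⟨n, hx, _⟩
        exact hx
    rw [h1]
    refine countable_iUnion fun n => (hfin 0 _ ?_).countable
    have : (0 : ℝ) ≤ n := Nat.cast_nonneg n
    linarith
  · intro w R hR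
    rw [Measure.restrict_apply measurableSet_ball, inter_comm,
      Measure.count_apply (hfin w R hR).measurableSet]
    exact hP w R hR

lemma ft_meas {n : ℕ} (f : sphere (0 : E n) 1 → ℂ) (hf : Integrable f (sigma n)) :
    Measurable (ft f) := by
  refine Continuous.measurable ?_
  unfold ft
  refine continuous_of_dominated (bound := fun x => ‖f x‖) ?_ ?_ hf.norm ?_
  · intro ξ
    refine AEStronglyMeasurable.mul ?_ hf.aestronglyMeasurable
    refine Continuous.aestronglyMeasurable ?_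
    fun_prop
  · intro ξ
    refine Filter.Eventually.of_forall fun x => ?_
    rw [norm_mul]
    have : ‖Complex.exp (-(2 * Real.pi * ⟪(x : E n), ξ⟫ : ℝ) * I)‖ = 1 := by
      rw [← Complex.ofReal_neg]
      exact Complex.norm_exp_ofReal_mul_I _
    rw [this, one_mul]
  · refine Filter.Eventually.of_forall fun x => ?_
    fun_prop

lemma sigma_fin (n : ℕ) : IsFiniteMeasure (sigma n) := by
  unfold sigma
  infer_instance

lemma two : Pool.Agent.N720.SL.S_TWO := Pool.Agent.N306.CY.TWO.main Pool.Agent.N400.CYRL.main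

/-- **Theorem.** Let `n = m + k ≥ 2`, `k ≥ 1`, and let `c` stand for orthogonal coordinates.
1. (Upper bound.) If `s ≥ 2`, `α ≥ 0` and `ν (B(w,R)) ≤ A R^α` for `R ≥ 1` then the inequality holds
   for all `q > 2 + 4/(n-1) · min(1, max(0, α - (k-1)/2, 1 + α/2 - k + k/s))`.
2. (Dimension `k/2`.) Let `s ≥ 4`, or `s ≥ 2` if `k ≥ 2`. For all `q > 2n/(n-1)` the inequality holds
   for all `ν` with `ν (B(w,R)) ≤ A R^(k/2)`; for Lebesgue measure on every region `ι(ℝ^m) + κ(W)` with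
   `|W ∩ B(w,R)| ≤ A R^(k/2)`; and for every family of parallel affine subspaces `ι(ℝ^m) + κ(w)`,
   `w ∈ P`, with at most `A R^(k/2)` points of `P` in each ball of radius `R ≥ 1`.
3. (Endpoint.) For `s = 2`, `k ≤ 2`, `0 < α ≤ 1` the weak type inequality holds for the exponent
   `q_c = 2 + 2(α - k + 2)/(n-1)`.
4. (Optimality for `s = 2`.) If `m ≥ 1` and `ν (B(0,R)) ≥ b R^α`, `b > 0`, for arbitrarily large `R`
   then the inequality fails for `s = 2` and all `0 < q < 2 + 2(α - k + 2)/(n-1)`.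
5. (Optimality of `q = 2`.) If `m ≥ 1` and `ν ≠ 0` it fails for all `s ≥ 1` and `0 < q < 2`.
The constants in 1, 2, 3 depend only on `m, k, s, α, A, q`. -/
theorem result (m k : ℕ) (hk : 1 ≤ k) (hn : 2 ≤ m + k) :
    (∀ (s : ℝ≥0∞) (α A q : ℝ), 2 ≤ s → 0 ≤ α → crit m k α s < q →
      ∃ C : ℝ≥0, ∀ (c : Coord m k) (ν : Measure (E k)), Growth α A ν → Ineq s q C c ν) ∧
    (∀ (s : ℝ≥0∞) (A q : ℝ), 4 ≤ s ∨ 2 ≤ k ∧ 2 ≤ s →
      2 * ((m : ℝ) + k) / ((m : ℝ) + k - 1) < q → ∃ C : ℝ≥0, ∀ c : Coord m k,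
        (∀ ν : Measure (E k), Growth (k / 2) A ν → Ineq s q C c ν) ∧
        (∀ W : Set (E k), Growth (k / 2) A (volume.restrict W) → OnRegion s q C c W) ∧
        (∀ P : Set (E k), Points (k / 2) A P → OnPlanes s q C c P)) ∧
    (∀ α A : ℝ, k ≤ 2 → 0 < α → α ≤ 1 →
      ∃ C : ℝ≥0, ∀ (c : Coord m k) (ν : Measure (E k)), Growth α A ν →
        WeakIneq (qc m k α) C c ν) ∧
    (1 ≤ m → ∀ (c : Coord m k) (ν : Measure (E k)) (α b : ℝ), 0 < b → Large α b ν →
      ∀ q : ℝ, 0 < q → q < qc m k α → ¬ ∃ C : ℝ≥0, Ineq 2 q C c ν) ∧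
    (1 ≤ m → ∀ (c : Coord m k) (ν : Measure (E k)), ν ≠ 0 →
      ∀ (s : ℝ≥0∞) (q : ℝ), 1 ≤ s → 0 < q → q < 2 → ¬ ∃ C : ℝ≥0, Ineq s q C c ν) := by
  refine ⟨fun s α A q hs hα hq => general hk hn s hs α A q hα hq, ?_, ?_, ?_, ?_⟩
  · intro s A q hs hq
    obtain ⟨C, hC⟩ := half (m := m) hk hn s hs A q hq
    have hs1 : (1 : ℝ≥0∞) ≤ s := by
      rcases hs with h | h
      · exact le_trans (by norm_num) h
      · exact le_trans (by norm_num) h.2
    have hfin := sigma_fin (m + k)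
    refine ⟨C, fun c => ⟨hC c, ?_, ?_⟩⟩
    · intro W hW f hf
      have hfi : Integrable f (sigma (m + k)) := memLp_one_iff_integrable.1 (hf.mono_exponent hs1)
      rw [region_eq c.ι c.κ c.orth W (fun ξ => ‖ft f ξ‖ₑ ^ q) ((ft_meas f hfi).enorm.pow_const q)]
      exact hC c _ hW f hf
    · intro P hP f hf
      obtain ⟨hPc, hPg⟩ := count_growth P (k / 2) A hP
      have h1 := hC c _ hPg f hf
      refine le_of_eq_of_le ?_ h1
      rw [lintegral_countable _ hPc]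
      simp
  · intro α A hk2 hα hα1
    obtain ⟨C, hC⟩ := Pool.Agent.N720.SL.weak' (m := m) hk hk2 hn α hα hα1 A
    refine ⟨C, fun c ν hν f hf t ht => ?_⟩
    obtain ⟨F, rfl⟩ := exists_ext f
    have h1 := hC c.ι c.κ c.orth ν hν F ((memLp_restrict F 2).2 hf) t ht
    rw [norm_restrict] at h1
    simp_rw [ft_restrict]
    unfold qc
    push_cast at h1
    exact h1
  · rintro hm c ν α b hb hlow q hq0 hq ⟨C, hC⟩
    refine Pool.Agent.N521.SL.KNAPP.main m k hm hk c.ι c.κ c.orth ν α b hb hlow q hq0 hq ⟨C, ?_⟩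
    intro F hFm hF1
    have hF : MemLp F 2 (Pool.Agent.H789R2.FR.sg (m + k)) :=
      MemLp.of_bound hFm.aestronglyMeasurable 1 (Filter.Eventually.of_forall hF1)
    have h1 := hC (fun x => F x) ((memLp_restrict F 2).1 hF)
    rw [← norm_restrict] at h1
    simp_rw [ft_restrict] at h1
    exact h1
  · rintro hm c ν hν s q hs hq0 hq ⟨C, hC⟩
    have hfin := sigma_fin (m + k)
    set K : ℝ≥0∞ := (sigma (m + k)) univ ^ (s.toReal)⁻¹ * ENNReal.ofReal 1 with hK
    have hKtop : K ≠ ∞ :=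
      ENNReal.mul_ne_top (ENNReal.rpow_ne_top_of_nonneg (by positivity) (measure_ne_top _ _))
        ENNReal.ofReal_ne_top
    refine two m k hm hk c.ι c.κ c.orth ν hν q hq0 hq ⟨(C * K ^ q).toNNReal, ?_⟩
    intro F hFm hF1
    rw [ENNReal.coe_toNNReal (ENNReal.mul_ne_top ENNReal.coe_ne_top
      (ENNReal.rpow_ne_top_of_nonneg hq0.le hKtop))]
    have hF : MemLp F s (Pool.Agent.H789R2.FR.sg (m + k)) :=
      MemLp.of_bound hFm.aestronglyMeasurable 1 (Filter.Eventually.of_forall hF1)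
    have h1 := hC (fun x => F x) ((memLp_restrict F s).1 hF)
    simp_rw [ft_restrict] at h1
    refine h1.trans (mul_le_mul_right ?_ _)
    refine ENNReal.rpow_le_rpow ?_ hq0.le
    exact eLpNorm_le_of_ae_bound (Filter.Eventually.of_forall fun x => hF1 x)

end Pool.Agent.Results.MP_6cbfb8_an.Cylinders
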