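import Mathlib
import Pool.Agent.N248.LC.Sph
set_option autoImplicit false

/-!
# Stein's restriction conjecture for the sphere on random sets of caps

Let `n ≥ 2`, let `σ` be the surface measure on the unit sphere `S^{n-1}` and let
`ft f ξ = ∫ e^{-2πi x·ξ} f(x) dσ(x)` be the Fourier transform of the measure `f dσ`. For a set `S` on
the sphere let `‖S‖_{q→p}` be the norm of `f ↦ ft f` from `L^q(S, σ)` to `L^p(B_R)`. Up to factors
`R^ε` the conjecture says that `‖S^{n-1}‖_{∞→p} ≤ C_ε R^ε` for `p = 2n/(n-1)`.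

Let `S` be the union of a typical set of `k` among `N` given disjoint cells of measure at most `κ`.
We show that, up to `(log R)⁴`, the norm `‖S‖_{q→p}` is the larger of two terms: the full norm
`‖S^{n-1}‖_{q→p}` times `(k/N)^(1-1/q)`, and the bound `(kκ)^(1/2-1/q) κ^(1/2-1/p) R^(1/p)` which
square root cancellation between the cells would give. This holds for all `2 ≤ q ≤ ∞`, all
`p ≥ 2` and all functions on `S` at the same time. Both terms are necessary for caps of radius about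
`1/R`. It follows that for all but a proportion `R^(-A)` of the sets of caps of density
`R^(-(n-1)/(4n))` one has `‖ft f‖_{L^p(B_R)} ≤ C (log R)⁴ ‖f‖_∞`, `p = 2n/(n-1)`, for all `f` supported
on these caps, and that every bound `‖S^{n-1}‖_{q→p} ≤ C_ε R^(a+ε)` is equivalent to the bound
`C_ε R^(a-ρ(1-1/q)+ε)` for typical sets of caps of density `R^(-ρ)`, if `a ≥ ρ/2 + n/p - (n-1)/2`.

The proof combines duality for the level sets, the sampling method of Maurey for the transforms of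
measures, a union bound over all samples, concentration for sums over random sets, and an
interpolation between the levels of `f`.
-/

namespace Pool.Agent.Results.MP_6cbfb8_an.RandomCaps

open MeasureTheory Set Metric Complex
open scoped ENNReal NNReal RealInnerProductSpace

/-- the unit sphere in `ℝⁿ` -/
abbrev Sph (n : ℕ) : Type := sphere (0 : EuclideanSpace ℝ (Fin n)) 1

/-- surface measure on the unit sphere -/
noncomputable def sigma (n : ℕ) : Measure (Sph n) := (volume : Measure (EuclideanSpace ℝ (Fin n))).toSphere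

/-- the Fourier transform of the measure `f dσ` -/
noncomputable def ft {n : ℕ} (f : Sph n → ℂ) (ξ : EuclideanSpace ℝ (Fin n)) : ℂ :=
  ∫ x, Complex.exp (-(2 * Real.pi * ⟪(x : EuclideanSpace ℝ (Fin n)), ξ⟫ : ℝ) * I) * f x ∂(sigma n)

/-- The norm of `f ↦ ft f` from `L^q(S, σ)` to `L^p(B_R)`: the supremum of `‖ft f‖_{L^p(B_R)}` over
the measurable functions `f` with `‖f‖_{L^q(σ)} ≤ 1` which vanish off `S`. -/
noncomputable def opNorm {n : ℕ} (S : Set (Sph n)) (q : ℝ≥0∞) (p R : ℝ) : ℝ≥0∞ :=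
  ⨆ (f : Sph n → ℂ)
    (_ : Measurable f ∧ (∀ x, x ∉ S → f x = 0) ∧ eLpNorm f q (sigma n) ≤ 1),
    eLpNorm (ft f) (ENNReal.ofReal p) (volume.restrict (ball 0 R))

/-- A partition of the sphere (up to a null set) into caps of radius about `1/R`: disjoint measurable
sets of diameter at most `K/R` and of measure between `R^(-(n-1))/K` and `K R^(-(n-1))`. -/
structure Caps (n : ℕ) (R K : ℝ) {ι : Type} (J : Finset ι) (θ : ι → Set (Sph n)) :
    Prop where
  meas : ∀ i ∈ J, MeasurableSet (θ i)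
  disj : (J : Set ι).PairwiseDisjoint θ
  cover : ∀ᵐ x ∂(sigma n), x ∈ ⋃ i ∈ J, θ i
  low : ∀ i ∈ J, R ^ (-((n : ℝ) - 1)) / K ≤ (sigma n).real (θ i)
  up : ∀ i ∈ J, (sigma n).real (θ i) ≤ K * R ^ (-((n : ℝ) - 1))
  diam : ∀ i ∈ J, ∀ x ∈ θ i, ∀ y ∈ θ i, ‖(x : EuclideanSpace ℝ (Fin n)) - (y : EuclideanSpace ℝ (Fin n))‖ ≤ K / R

/-- `P I` holds for all but a proportion `δ` of the `k`-element subsets `I` of `J`. -/
def Most {ι : Type} (J : Finset ι) (k : ℕ) (δ : ℝ) (P : Finset ι → Prop) : Prop :=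
  ({I : Finset ι | I ⊆ J ∧ I.card = k ∧ ¬ P I}.ncard : ℝ) ≤ δ * (J.card.choose k : ℕ)

/-- For all but a proportion `δ` of the sets of `k` cells the norm on their union is at most `X`. -/
def Typical {n : ℕ} {ι : Type} (J : Finset ι) (θ : ι → Set (Sph n)) (k : ℕ)
    (q : ℝ≥0∞) (p R δ X : ℝ) : Prop :=
  Most J k δ fun I => opNorm (⋃ i ∈ I, θ i) q p R ≤ ENNReal.ofReal X

/-- `(k/N)^(1-1/q)`, where `N = |J|` -/
noncomputable def dens {ι : Type} (J : Finset ι) (k : ℕ) (q : ℝ≥0∞) : ℝ :=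
  ((k : ℝ) / J.card) ^ (1 - 1 / q.toReal)

open Pool.Agent.N248.LC Pool.Agent.N248.RR in
open Pool.Agent.N248.RC (Eo ker) in
lemma ft_eq {n : ℕ} (f : Sph n → ℂ) :
    ft f = Eo (sm n) (ker (Ps n (-(2 * Real.pi)))) f := by
  ext ξ
  unfold ft Eo
  refine integral_congr_ae (Filter.Eventually.of_forall fun x => ?_)
  simp only
  rw [mul_comm]
  congr 1
  unfold ker Ps ex
  rw [inner_smul_left]
  congr 2
  simp

open Pool.Agent.N248.LC in
lemma opNorm_eq {n : ℕ} (S : Set (Sph n)) (q : ℝ≥0∞) (p R : ℝ) :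
    opNorm S q p R = opE (sm n) (Ps n (-(2 * Real.pi))) S q p R := by
  unfold opNorm opE
  simp_rw [ft_eq]
  rfl

open Pool.Agent.N248.LC in
lemma typical_iff {n : ℕ} {ι : Type} (J : Finset ι) (θ : ι → Set (Sph n)) (k : ℕ)
    (q : ℝ≥0∞) (p R δ X : ℝ) :
    Typical J θ k q p R δ X ↔ Typ (sm n) (Ps n (-(2 * Real.pi))) J θ k q p R δ X := by
  unfold Typical Typ Most
  simp_rw [opNorm_eq]
  rfl

open Pool.Agent.N248.LC in
lemma caps_cps {n : ℕ} {R K : ℝ} (hR : 0 < R) (hK : 1 ≤ K) {ι : Type} {J : Finset ι}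
    {θ : ι → Set (Sph n)} (h : Caps n R K J θ) :
    Cps (sm n) (Ps n (-(2 * Real.pi))) ((n : ℝ) - 1) R (2 * Real.pi * K) J θ := by
  have hpi := Real.pi_gt_three
  have hK0 : 0 < K := by linarith
  have hKK : K ≤ 2 * Real.pi * K := by nlinarith
  refine ⟨h.meas, h.disj, h.cover, fun i hi => ?_, fun i hi => ?_, fun i hi y hy y' hy' => ?_⟩
  · refine le_trans ?_ (h.low i hi)
    exact div_le_div_of_nonneg_left (by positivity) hK0 hKK
  · refine (h.up i hi).trans ?_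
    exact mul_le_mul_of_nonneg_right hKK (by positivity)
  · unfold Ps
    rw [← smul_sub, norm_smul, Real.norm_eq_abs, abs_neg, abs_of_pos (by positivity), mul_div_assoc]
    exact mul_le_mul_of_nonneg_left (h.diam i hi y hy y' hy') (by positivity)

open Pool.Agent.N248.LC in
/-- **Stein's restriction conjecture for the sphere on random sets of caps**, `n ≥ 2`.

(1) For all `A, B` there is `C` such that for `R ≥ 2` and any family of at most `R^B` pairwise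
disjoint measurable cells `θ_i`, `i ∈ J`, of measure at most `κ`, where `κ ≥ R^(-B)`: for all but a
proportion `R^(-A)` of the sets `I` of `k` cells, with `S = ⋃_{i ∈ I} θ_i`, and for all
`2 ≤ q ≤ ∞`, `p ≥ 2`, `‖S‖_{q→p} ≤
C (log R)⁴ ((k/N)^(1-1/q) ‖S^{n-1}‖_{q→p} + (kκ)^(1/2-1/q) κ^(1/2-1/p) R^(1/p))`, where `N = |J|`
and `‖S‖_{q→p}` is the norm from `L^q(S, σ)` to `L^p(B_R)`.

(2) Let the sphere be partitioned into `N` caps of radius about `1/R` (with constant `K`).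

(2a) `‖S‖_{q→p} ≥ c (k R^(-(n-1)))^(1/2-1/q) R^(n/p-(n-1)/2)` for the union `S` of any `k ≥ 1` caps
(this is the second term of (1) for `κ = R^(-(n-1))`);

(2b) if `‖S‖_{q→p} ≤ X` for all but a proportion `δ` of the sets of `k` caps, then
`(k/N)^(1-1/q) ‖S^{n-1}‖_{q→p} ≤ X + C δ R^(2n-1)`;

(2c) for `2 ≤ p ≤ 2(n+1)/(n-1)` and all but a proportion `R^(-A)` of the sets of `k` caps
`‖S‖_{q→p} ≤ C (log R)⁴ ((k/N)^(1-1/q) R^((n+1)/(2p)-(n-1)/4) + (k/N)^(1/2-1/q) R^(n/p-(n-1)/2))`;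

(2d) hence, if `(k/N)^(1-1/q) ≤ R^(-(n-1)/(4n))`, then for all but a proportion `R^(-A)` of the sets of
`k` caps `‖ft f‖_{L^p(B_R)} ≤ C (log R)⁴ ‖f‖_{L^q(σ)}`, `p = 2n/(n-1)`, for all `f` supported on
the caps.

(3) Let `p ≥ 2`, `2 ≤ q ≤ ∞`, `0 ≤ ρ ≤ n-1`, `a ≥ ρ/2 + n/p - (n-1)/2`, and let a partition into caps
be given for each `R = 2, 3, ...`. Then `‖S^{n-1}‖_{q→p} ≤ C_ε R^(a+ε)` holds if and only if, for
each `A`, `‖S‖_{q→p} ≤ C_{ε,A} R^(a-ρ(1-1/q)+ε)` for all but a proportion `R^(-A)` of the sets of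
`⌈R^(-ρ) N⌉` caps. -/
theorem result (n : ℕ) (hn : 2 ≤ n) :
    (∀ A B : ℝ, 0 ≤ A → 0 ≤ B → ∃ C : ℝ, ∀ R : ℝ, 2 ≤ R → ∀ κ : ℝ, R ^ (-B) ≤ κ →
      ∀ (ι : Type) (J : Finset ι) (θ : ι → Set (Sph n)), (J.card : ℝ) ≤ R ^ B →
      (∀ i ∈ J, MeasurableSet (θ i) ∧ sigma n (θ i) ≤ ENNReal.ofReal κ) →
      (J : Set ι).PairwiseDisjoint θ → ∀ k : ℕ, 1 ≤ k → k ≤ J.card →
      Most J k (R ^ (-A)) fun I => ∀ (q : ℝ≥0∞) (p : ℝ), 2 ≤ q → 2 ≤ p →
        opNorm (⋃ i ∈ I, θ i) q p R ≤ ENNReal.ofReal (C * Real.log R ^ 4) *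
          (ENNReal.ofReal (dens J k q) * opNorm (n := n) univ q p R +
            ENNReal.ofReal ((k * κ) ^ (1 / 2 - 1 / q.toReal) * κ ^ (1 / 2 - 1 / p) *
              R ^ (1 / p)))) ∧
    (∀ K A : ℝ, 1 ≤ K → 0 ≤ A → ∃ c C : ℝ, 0 < c ∧ ∀ R : ℝ, 2 ≤ R → ∀ (ι : Type) (J : Finset ι)
      (θ : ι → Set (Sph n)), Caps n R K J θ → ∀ k : ℕ, 1 ≤ k → k ≤ J.card →
      ∀ q : ℝ≥0∞, 2 ≤ q →
      (∀ p : ℝ, 2 ≤ p →
        (∀ I : Finset ι, I ⊆ J → I.card = k →
          ENNReal.ofReal (c * ((k * R ^ (-((n : ℝ) - 1))) ^ (1 / 2 - 1 / q.toReal) *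
            R ^ ((n : ℝ) / p - ((n : ℝ) - 1) / 2))) ≤ opNorm (⋃ i ∈ I, θ i) q p R) ∧
        (∀ X δ : ℝ, 0 ≤ X → 0 ≤ δ → Typical J θ k q p R δ X →
          ENNReal.ofReal (dens J k q) * opNorm (n := n) univ q p R ≤
            ENNReal.ofReal (X + C * δ * R ^ (2 * (n : ℝ) - 1))) ∧
        (p ≤ 2 * (n + 1) / (n - 1) → Typical J θ k q p R (R ^ (-A)) (C * Real.log R ^ 4 *
          (dens J k q * R ^ (((n : ℝ) + 1) / (2 * p) - ((n : ℝ) - 1) / 4) +
            (k / J.card) ^ (1 / 2 - 1 / q.toReal) * R ^ ((n : ℝ) / p - ((n : ℝ) - 1) / 2))))) ∧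
      (dens J k q ≤ R ^ (-(((n : ℝ) - 1) / (4 * n))) →
        Typical J θ k q (2 * n / (n - 1)) R (R ^ (-A)) (C * Real.log R ^ 4))) ∧
    (∀ (K : ℝ) (ι : ℕ → Type) (J : ∀ R, Finset (ι R))
      (θ : ∀ R, ι R → Set (Sph n)), 1 ≤ K →
      (∀ R : ℕ, 2 ≤ R → Caps n R K (J R) (θ R)) → ∀ (q : ℝ≥0∞) (p ρ a : ℝ), 2 ≤ q → 2 ≤ p →
      0 ≤ ρ → ρ ≤ (n : ℝ) - 1 → ρ / 2 + n / p - ((n : ℝ) - 1) / 2 ≤ a →
      ((∀ ε : ℝ, 0 < ε → ∃ C : ℝ, ∀ R : ℕ, 2 ≤ R →
        opNorm (n := n) univ q p R ≤ ENNReal.ofReal (C * (R : ℝ) ^ (a + ε))) ↔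
      ∀ ε : ℝ, 0 < ε → ∀ A : ℝ, 0 ≤ A → ∃ C : ℝ, ∀ R : ℕ, 2 ≤ R →
        Typical (J R) (θ R) ⌈(R : ℝ) ^ (-ρ) * (J R).card⌉₊ q p R ((R : ℝ) ^ (-A))
          (C * (R : ℝ) ^ (a - ρ * (1 - 1 / q.toReal) + ε)))) := by
  have hpi := Real.pi_gt_three
  have hnR : (2 : ℝ) ≤ n := by exact_mod_cast hn
  have hs : (-(2 * Real.pi) : ℝ) ≠ 0 := by
    have : 0 < 2 * Real.pi := by positivity
    linarith
  obtain ⟨B0, hB0, hLt⟩ := Ps_Lt hn (-(2 * Real.pi)) hs
  have hΦ := Ps_meas (n := n) (-(2 * Real.pi))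
  have hb : ∀ y, ‖Ps n (-(2 * Real.pi)) y‖ ≤ |(-(2 * Real.pi))| := fun y => (Ps_norm _ y).le
  have hKK : ∀ K : ℝ, 1 ≤ K → 1 ≤ 2 * Real.pi * K := fun K hK => by nlinarith
  refine ⟨?_, ?_, ?_⟩
  · intro A B hA hB
    obtain ⟨C, hC0, hC⟩ := genE (sm n) (Ps n (-(2 * Real.pi))) hΦ _ (abs_nonneg _) hb B0 hB0 hLt
      A B hA hB
    refine ⟨C, ?_⟩
    unfold Most dens
    simp_rw [opNorm_eq]
    exact hC
  · intro K A hK hA
    obtain ⟨c, hc0, hc⟩ := capSqrt (sm n) (Ps n (-(2 * Real.pi))) hΦ ((n : ℝ) - 1) _ (hKK K hK)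
    obtain ⟨T, hT0, hT⟩ := capLower (sm n) (Ps n (-(2 * Real.pi))) hΦ ((n : ℝ) - 1) _
      (by linarith) (hKK K hK)
    obtain ⟨W, hW0, hW⟩ := Ps_WkA hn (-(2 * Real.pi)) hs
    obtain ⟨C, hC0, hC⟩ := capE (sm n) (Ps n (-(2 * Real.pi))) hΦ _ (abs_nonneg _) hb B0 hB0 hLt
      ((n : ℝ) - 1) _ A (by linarith) (hKK K hK) hA
    have key : ∀ R : ℝ, 2 ≤ R → ∀ (ι : Type) (J : Finset ι)
        (θ : ι → Set (Sph n)), Caps n R K J θ → ∀ k : ℕ, 1 ≤ k → k ≤ J.card →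
        ∀ q : ℝ≥0∞, 2 ≤ q → ∀ p : ℝ, 2 ≤ p → p ≤ 2 * (n + 1) / (n - 1) → ∀ X : ℝ,
        C * (W + 1) * Real.log R ^ 4 *
          (dens J k q * R ^ (((n : ℝ) + 1) / (2 * p) - ((n : ℝ) - 1) / 4) +
            (k / J.card) ^ (1 / 2 - 1 / q.toReal) * R ^ ((n : ℝ) / p - ((n : ℝ) - 1) / 2)) ≤ X →
        Typical J θ k q p R (R ^ (-A)) X := by
      intro R hR ι J θ hJ k hk hkJ q hq p hp hpp X hX
      have hR0 : 0 < R := by linarith
      have hlog : 0 ≤ Real.log R := Real.log_nonneg (by linarith)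
      rw [typical_iff]
      refine hC R hR ι J θ (caps_cps hR0 hK hJ) k hk hkJ q p hq hp
        (W * R ^ (((n : ℝ) + 1) / (2 * p) - ((n : ℝ) - 1) / 4)) (by positivity)
        (hW R (by linarith) p hp hpp q hq) X (le_trans ?_ hX)
      have e : ((n : ℝ) - 1 + 1) / p - ((n : ℝ) - 1) / 2 = (n : ℝ) / p - ((n : ℝ) - 1) / 2 := by
        ring
      rw [e]
      unfold dens
      obtain ⟨x, hx⟩ : ∃ x : ℝ, x = ((k : ℝ) / J.card) ^ (1 - 1 / q.toReal) *
        R ^ (((n : ℝ) + 1) / (2 * p) - ((n : ℝ) - 1) / 4) := ⟨_, rfl⟩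
      obtain ⟨y, hy⟩ : ∃ y : ℝ, y = ((k : ℝ) / J.card) ^ (1 / 2 - 1 / q.toReal) *
        R ^ ((n : ℝ) / p - ((n : ℝ) - 1) / 2) := ⟨_, rfl⟩
      have hx0 : 0 ≤ x := by rw [hx]; positivity
      have hy0 : 0 ≤ y := by rw [hy]; positivity
      have e2 : ((k : ℝ) / J.card) ^ (1 - 1 / q.toReal) *
          (W * R ^ (((n : ℝ) + 1) / (2 * p) - ((n : ℝ) - 1) / 4)) = W * x := by rw [hx]; ring
      rw [e2, ← hx, ← hy]
      have h2 : W * x + y ≤ (W + 1) * (x + y) := by nlinarith [mul_nonneg hW0 hy0]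
      calc C * Real.log R ^ 4 * (W * x + y) ≤ C * Real.log R ^ 4 * ((W + 1) * (x + y)) :=
            mul_le_mul_of_nonneg_left h2 (by positivity)
        _ = _ := by ring
    have hD1 : C * (W + 1) ≤ 2 * (C * (W + 1)) + T := by
      have : 0 ≤ C * (W + 1) := by positivity
      linarith
    refine ⟨c, 2 * (C * (W + 1)) + T, hc0, fun R hR ι J θ hJ k hk hkJ q hq =>
      ⟨fun p hp => ⟨?_, ?_, ?_⟩, fun hd => ?_⟩⟩
    · intro I hI hcard
      have hne : I.Nonempty := by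
        rw [← Finset.card_pos]
        omega
      have h := hc R (by linarith) ι J θ (caps_cps (by linarith) hK hJ) I hI hne q p hq hp
      rw [opNorm_eq]
      rw [hcard] at h
      exact h
    · intro X δ hX hδ hty
      have h := hT R (by linarith) ι J θ (caps_cps (by linarith) hK hJ) k hk hkJ q p hq hp X δ
        hX hδ ((typical_iff J θ k q p R δ X).1 hty)
      have e : (n : ℝ) + ((n : ℝ) - 1) = 2 * n - 1 := by ring
      rw [e] at h
      rw [opNorm_eq]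
      unfold dens
      refine h.trans (ENNReal.ofReal_le_ofReal ?_)
      have hR0 : 0 < R := by linarith
      have h1 : T ≤ 2 * (C * (W + 1)) + T := by
        have : 0 ≤ C * (W + 1) := by positivity
        linarith
      have h2 : T * δ * R ^ (2 * (n : ℝ) - 1) ≤
          (2 * (C * (W + 1)) + T) * δ * R ^ (2 * (n : ℝ) - 1) :=
        mul_le_mul_of_nonneg_right (mul_le_mul_of_nonneg_right h1 hδ) (by positivity)
      linarith
    · intro hpp
      have hR0 : 0 < R := by linarith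
      have hlog : 0 ≤ Real.log R := Real.log_nonneg (by linarith)
      refine key R hR ι J θ hJ k hk hkJ q hq p hp hpp _ ?_
      refine mul_le_mul_of_nonneg_right (mul_le_mul_of_nonneg_right hD1 (by positivity)) ?_
      unfold dens
      positivity
    · have hR0 : 0 < R := by linarith
      have hR1 : 1 ≤ R := by linarith
      have hlog : 0 ≤ Real.log R := Real.log_nonneg hR1
      have hn1 : (0 : ℝ) < n - 1 := by linarith
      have hn0 : (0 : ℝ) < n := by linarith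
      refine key R hR ι J θ hJ k hk hkJ q hq (2 * n / (n - 1)) (by
        rw [le_div_iff₀ hn1]; linarith) (by
        refine div_le_div_of_nonneg_right (by linarith) hn1.le) _ ?_
      have e1 : ((n : ℝ) + 1) / (2 * (2 * n / (n - 1))) - ((n : ℝ) - 1) / 4 =
          ((n : ℝ) - 1) / (4 * n) := by
        field_simp
        ring
      have e2 : (n : ℝ) / (2 * n / (n - 1)) - ((n : ℝ) - 1) / 2 = 0 := by
        field_simp
        ring
      rw [e1, e2, Real.rpow_zero, mul_one]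
      obtain ⟨hβ0, hβ2⟩ := inv_range q hq
      have h1 : dens J k q * R ^ (((n : ℝ) - 1) / (4 * n)) ≤ 1 := by
        calc _ ≤ R ^ (-(((n : ℝ) - 1) / (4 * n))) * R ^ (((n : ℝ) - 1) / (4 * n)) :=
              mul_le_mul_of_nonneg_right hd (by positivity)
          _ = 1 := by rw [← Real.rpow_add hR0, neg_add_cancel, Real.rpow_zero]
      have hN0 : (0 : ℝ) < J.card := by
        have : 0 < J.card := by omega
        exact_mod_cast this
      have h2 : ((k : ℝ) / J.card) ^ (1 / 2 - 1 / q.toReal) ≤ 1 := by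
        refine Real.rpow_le_one (by positivity) ?_ (by linarith)
        rw [div_le_one hN0]
        exact_mod_cast hkJ
      have h3 : 0 ≤ T * Real.log R ^ 4 := by positivity
      calc C * (W + 1) * Real.log R ^ 4 *
          (dens J k q * R ^ (((n : ℝ) - 1) / (4 * n)) +
            ((k : ℝ) / J.card) ^ (1 / 2 - 1 / q.toReal)) ≤ C * (W + 1) * Real.log R ^ 4 * 2 :=
            mul_le_mul_of_nonneg_left (by linarith) (by positivity)
        _ ≤ C * (W + 1) * Real.log R ^ 4 * 2 + T * Real.log R ^ 4 := by linarith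
        _ = _ := by ring
  · intro K ι J θ hK hJ q p ρ a hq hp hρ hρn ha
    have h := cap_iff (sm n) (Ps n (-(2 * Real.pi))) hΦ _ (abs_nonneg _) hb B0 hB0 hLt (sm_pos hn)
      ((n : ℝ) - 1) _ (hKK K hK) ι J θ (fun R hR => caps_cps (by positivity) hK (hJ R hR)) q p
      hq hp ρ a hρ hρn (by
        refine le_trans (le_of_eq ?_) ha
        ring)
    simp_rw [opNorm_eq, typical_iff]
    exact h

end Pool.Agent.Results.MP_6cbfb8_an.RandomCaps
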