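import Mathlib
import Pool.Agent.N248.RL.S
import Pool.Agent.N248.RL.X
set_option autoImplicit false

/-!
# Stein's restriction conjecture for the sphere and random regions

Let `n ≥ 2`, let `σ` be the surface measure on the unit sphere `S^{n-1}` and let
`ft f ξ = ∫ e^{-2πi x·ξ} f(x) dσ(x)` be the Fourier transform of the measure `μ = f dσ`. Choose the
lattice unit cubes at random, independently, the cube `j + [0,1)ⁿ` with a probability comparable to
`(1 + |j|)^{-a}`, `0 < a ≤ 1`, and let `Ω` be the union of the chosen cubes, a random region of density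
`|ξ|^{-a}` and of infinite volume.

**Theorem.** Let `2 ≤ s ≤ ∞` and `p > 2`. The following are equivalent:

(i) the local estimate `∫_{B_R} |μ^|^p ≤ C_ε R^ε ‖f‖_{L^s(σ)}^p` for all `ε > 0`, `R ≥ 1`, `μ = f dσ`;

(ii) for every `0 < a ≤ 1` and almost every random region `Ω` of density `|ξ|^{-a}` one has
`‖μ^‖_{L^q(Ω)} ≤ C ‖f‖_{L^s(σ)}` for all `μ = f dσ` and all `q > p - a (p - 2)`;

(iii) for arbitrarily small `a > 0` there are random regions `Ω` of density `|ξ|^{-a}` for which almost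
surely `‖μ^‖_{L^p(Ω)} ≤ C ‖f‖_{L^s(σ)}` for all `μ = f dσ`.

For `s = ∞`, `p = 2n/(n-1)` the statement (i) is the local form of Stein's conjecture, and it follows
from it. So the conjecture in its local form is equivalent to global estimates without losses for
almost every region of density `|ξ|^{-a}`, for all `0 < a ≤ 1`, in the range `q > (2n - 2a)/(n-1)`; this
range is sharp for every `a`, already for `μ = σ`. In `L²(σ)` nothing has to be assumed: for almost
every region of density `|ξ|^{-a}` the inequality holds for all `q > (2(n+1) - 4a)/(n-1)` and fails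
for all smaller `q`. In particular (`a = 1/2`) almost every region of density `|ξ|^{-1/2}` has the
property that `μ^ ∈ L^q(Ω)` in the full range `q > 2n/(n-1)` of the conjecture, for all densities in
`L²(σ)`, and for `a = 1` one has the range `q > 2` of (ii).
-/

namespace Pool.Agent.Results.MP_6cbfb8_an.RandomRegions

open MeasureTheory ProbabilityTheory Set Metric Complex
open scoped ENNReal NNReal RealInnerProductSpace

/-- the unit sphere in `ℝⁿ` -/
abbrev Sph (n : ℕ) : Type := sphere (0 : EuclideanSpace ℝ (Fin n)) 1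

/-- surface measure on the unit sphere -/
noncomputable def sigma (n : ℕ) : Measure (Sph n) :=
  (volume : Measure (EuclideanSpace ℝ (Fin n))).toSphere

/-- the Fourier transform of the measure `f dσ` -/
noncomputable def ft {n : ℕ} (f : Sph n → ℂ) (ξ : EuclideanSpace ℝ (Fin n)) : ℂ :=
  ∫ x, Complex.exp (-(2 * Real.pi * ⟪(x : EuclideanSpace ℝ (Fin n)), ξ⟫ : ℝ) * I) * f x ∂(sigma n)

/-- the unit cube `j + [0,1)ⁿ` -/
def cube {n : ℕ} (j : Fin n → ℤ) : Set (EuclideanSpace ℝ (Fin n)) :=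
  {ξ | ∀ i, (j i : ℝ) ≤ ξ i ∧ ξ i < j i + 1}

/-- The independent events `A j` (the cube `j` is chosen) of probability comparable to
`(1 + |j|)^(-a)`. -/
structure RandomCubes {n : ℕ} {Ω : Type} [MeasurableSpace Ω] (P : Measure Ω)
    (A : (Fin n → ℤ) → Set Ω) (a : ℝ) : Prop where
  meas : ∀ j, MeasurableSet (A j)
  indep : iIndepSet A P
  low : ∃ c : ℝ, 0 < c ∧ ∀ j, ENNReal.ofReal (c * (1 + ‖j‖) ^ (-a)) ≤ P (A j)
  up : ∃ c : ℝ, ∀ j, P (A j) ≤ ENNReal.ofReal (c * (1 + ‖j‖) ^ (-a))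

/-- the union of the chosen cubes -/
def region {n : ℕ} {Ω : Type} (A : (Fin n → ℤ) → Set Ω) (ω : Ω) :
    Set (EuclideanSpace ℝ (Fin n)) :=
  ⋃ j ∈ {j | ω ∈ A j}, cube j

/-- The Fourier transform maps `L^s(σ)` boundedly to `L^q(W)`. -/
def Bounded {n : ℕ} (s : ℝ≥0∞) (q : ℝ) (W : Set (EuclideanSpace ℝ (Fin n))) : Prop :=
  ∃ C : ℝ≥0, ∀ f : Sph n → ℂ, MemLp f s (sigma n) →
    ∫⁻ ξ in W, ‖ft f ξ‖ₑ ^ q ≤ C * eLpNorm f s (sigma n) ^ q

/-- The local estimate: for all `ε > 0` there is `C` with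
`∫_{B_R} |ft f|^p ≤ C R^ε ‖f‖_{L^s(σ)}^p` for all `R ≥ 1`. -/
def Local (n : ℕ) (s : ℝ≥0∞) (p : ℝ) : Prop :=
  ∀ ε : ℝ, 0 < ε → ∃ C : ℝ, ∀ R : ℝ, 1 ≤ R → ∀ f : Sph n → ℂ, MemLp f s (sigma n) →
    ∫⁻ ξ in ball 0 R, ‖ft f ξ‖ₑ ^ p ≤ ENNReal.ofReal (C * R ^ ε) * eLpNorm f s (sigma n) ^ p

open Pool.Agent.N248.RR

lemma sg_map (n : ℕ) : Pool.Agent.H789R2.FR.sg n = (sigma n).map Subtype.val := rfl

lemma emb (n : ℕ) : MeasurableEmbedding (Subtype.val : Sph n → EuclideanSpace ℝ (Fin n)) :=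
  MeasurableEmbedding.subtype_coe isClosed_sphere.measurableSet

lemma ft_restrict {n : ℕ} (F : EuclideanSpace ℝ (Fin n) → ℂ) (ξ : EuclideanSpace ℝ (Fin n)) :
    ft (fun x : Sph n => F x) ξ = sF (-(2 * Real.pi)) F ξ := by
  unfold sF
  rw [sg_map, (emb n).integral_map]
  unfold ft
  refine integral_congr_ae (Filter.Eventually.of_forall fun x => ?_)
  simp only
  unfold ex sS
  congr 2
  rw [inner_smul_left]
  simp

lemma exists_ext {n : ℕ} (f : Sph n → ℂ) :
    ∃ F : EuclideanSpace ℝ (Fin n) → ℂ, (fun x : Sph n => F x) = f := by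
  classical
  refine ⟨fun y => if h : y ∈ sphere (0 : EuclideanSpace ℝ (Fin n)) 1 then f ⟨y, h⟩ else 0, ?_⟩
  ext x
  simp only
  rw [dif_pos x.2]

lemma norm_restrict {n : ℕ} (F : EuclideanSpace ℝ (Fin n) → ℂ) (s : ℝ≥0∞) :
    eLpNorm F s (Pool.Agent.H789R2.FR.sg n) =
      eLpNorm (fun x : Sph n => F x) s (sigma n) := by
  rw [sg_map, (emb n).eLpNorm_map_measure]
  rfl

lemma memLp_restrict {n : ℕ} (F : EuclideanSpace ℝ (Fin n) → ℂ) (s : ℝ≥0∞) :
    MemLp F s (Pool.Agent.H789R2.FR.sg n) ↔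
      MemLp (fun x : Sph n => F x) s (sigma n) := by
  rw [sg_map, (emb n).memLp_map_measure_iff]
  rfl

lemma bdd_iff {n : ℕ} (s : ℝ≥0∞) (q : ℝ) (W : Set (EuclideanSpace ℝ (Fin n))) :
    Bounded s q W ↔ BddS (-(2 * Real.pi)) s q W := by
  constructor
  · rintro ⟨C, hC⟩
    refine ⟨C, fun F hF => ?_⟩
    have h := hC (fun x => F x) ((memLp_restrict F s).1 hF)
    simp_rw [ft_restrict] at h
    rw [norm_restrict]
    exact h
  · rintro ⟨C, hC⟩
    refine ⟨C, fun f hf => ?_⟩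
    obtain ⟨F, rfl⟩ := exists_ext f
    have h := hC F ((memLp_restrict F s).2 hf)
    rw [norm_restrict] at h
    simp_rw [ft_restrict]
    exact h

lemma ball_iff {n : ℕ} (s : ℝ≥0∞) (p R D : ℝ) :
    (∀ f : Sph n → ℂ, MemLp f s (sigma n) →
      ∫⁻ ξ in ball 0 R, ‖ft f ξ‖ₑ ^ p ≤ ENNReal.ofReal D * eLpNorm f s (sigma n) ^ p) ↔
    ∀ F : EuclideanSpace ℝ (Fin n) → ℂ, MemLp F s (Pool.Agent.H789R2.FR.sg n) →
      ∫⁻ x in ball 0 R, ‖sF (-(2 * Real.pi)) F x‖ₑ ^ p ≤
        ENNReal.ofReal D * eLpNorm F s (Pool.Agent.H789R2.FR.sg n) ^ p := by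
  constructor
  · intro hC F hF
    have h := hC (fun x => F x) ((memLp_restrict F s).1 hF)
    simp_rw [ft_restrict] at h
    rw [norm_restrict]
    exact h
  · intro hC f hf
    obtain ⟨F, rfl⟩ := exists_ext f
    have h := hC F ((memLp_restrict F s).2 hf)
    rw [norm_restrict] at h
    simp_rw [ft_restrict]
    exact h

lemma local_iff (n : ℕ) (s : ℝ≥0∞) (p : ℝ) :
    Local n s p ↔ Pool.Agent.N248.RL.LocS n (-(2 * Real.pi)) s p := by
  unfold Local Pool.Agent.N248.RL.LocS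
  constructor
  · intro h ε hε
    obtain ⟨C, hC⟩ := h ε hε
    refine ⟨max C 0, le_max_right _ _, fun R hR => (ball_iff s p R _).1 fun f hf =>
      (hC R hR f hf).trans (mul_le_mul' (ENNReal.ofReal_le_ofReal ?_) le_rfl)⟩
    exact mul_le_mul_of_nonneg_right (le_max_left _ _) (Real.rpow_nonneg (by linarith) _)
  · intro h ε hε
    obtain ⟨C, hC0, hC⟩ := h ε hε
    exact ⟨C, fun R hR => (ball_iff s p R _).2 (hC R hR)⟩

lemma cubes_iff {d : ℕ} {Ω : Type} [MeasurableSpace Ω] {P : Measure Ω}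
    {A : (Fin d → ℤ) → Set Ω} {a : ℝ} : RandomCubes P A a ↔ RC P A a :=
  ⟨fun h => ⟨h.meas, h.indep, h.low, h.up⟩, fun h => ⟨h.meas, h.indep, h.low, h.up⟩⟩

/-- **Theorem.** Let `n ≥ 2`.

(1) Let `2 ≤ s ≤ ∞` and `p > 2`. If `ft f ∈ L^q(ℝⁿ)` for all `f ∈ L^s(σ)` and all `q > p`, then the local
estimate `∫_{B_R} |ft f|^p ≤ C_ε R^ε ‖f‖_{L^s(σ)}^p` holds. The following are equivalent: this local
estimate; for every `0 < a ≤ 1` and every random choice of unit cubes with probabilities comparable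
to `(1 + |j|)^(-a)`, almost surely the Fourier transform maps `L^s(σ)` boundedly to `L^q` of the random
region for all `q > p - a (p - 2)`; for arbitrarily small `a` there is such a random choice for which
it almost surely maps `L^s(σ)` boundedly to `L^p` of the random region.

(2) For every `0 < a ≤ 1` and every random choice of unit cubes with probabilities comparable to
`(1 + |j|)^(-a)`, almost surely: the Fourier transform maps `L^s(σ)`, `s ≥ 2`, boundedly to `L^q` of the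
random region for all `q > (2(n+1) - 4a)/(n-1)`; it does not map `L²(σ)` boundedly to `L^q` of the
region for `0 < q < (2(n+1) - 4a)/(n-1)`; the Fourier transform of `σ` does not belong to `L^q` of the
region for `0 < q < (2n - 2a)/(n-1)`. -/
theorem result (n : ℕ) (hn : 2 ≤ n) :
    (∀ (s : ℝ≥0∞) (p : ℝ), 2 ≤ s → 2 < p →
      ((∀ q, p < q → ∀ f : Sph n → ℂ, MemLp f s (sigma n) → ∫⁻ ξ, ‖ft f ξ‖ₑ ^ q ≠ ∞) →
        Local n s p) ∧ List.TFAE [
      Local n s p,
      ∀ a : ℝ, 0 < a → a ≤ 1 → ∀ (Ω : Type) [MeasurableSpace Ω] (P : Measure Ω)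
        [IsProbabilityMeasure P] (A : (Fin n → ℤ) → Set Ω), RandomCubes P A a →
        ∀ᵐ ω ∂P, ∀ q, p - a * (p - 2) < q → Bounded s q (region A ω),
      ∀ ε : ℝ, 0 < ε → ∃ a : ℝ, 0 < a ∧ a ≤ 1 ∧ a < ε ∧ ∃ (Ω : Type) (_ : MeasurableSpace Ω)
        (P : Measure Ω) (_ : IsProbabilityMeasure P) (A : (Fin n → ℤ) → Set Ω),
        RandomCubes P A a ∧ ∀ᵐ ω ∂P, Bounded s p (region A ω)]) ∧
    ∀ a : ℝ, 0 < a → a ≤ 1 → ∀ (Ω : Type) [MeasurableSpace Ω] (P : Measure Ω)
      [IsProbabilityMeasure P] (A : (Fin n → ℤ) → Set Ω), RandomCubes P A a → ∀ᵐ ω ∂P,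
      (∀ (s : ℝ≥0∞) (q : ℝ), 2 ≤ s → (2 * (n + 1) - 4 * a) / (n - 1) < q →
        Bounded s q (region A ω)) ∧
      (∀ q, 0 < q → q < (2 * (n + 1) - 4 * a) / (n - 1) → ¬ Bounded 2 q (region A ω)) ∧
      (∀ q, 0 < q → q < (2 * n - 2 * a) / (n - 1) →
        ∫⁻ ξ in region A ω, ‖ft (fun _ => 1) ξ‖ₑ ^ q = ∞) := by
  have hnR : (2 : ℝ) ≤ n := by exact_mod_cast hn
  have hn1 : (0 : ℝ) < (n : ℝ) - 1 := by linarith
  have hpi : -(2 * Real.pi) ≠ 0 := by
    have := Real.pi_pos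
    intro h
    linarith
  simp_rw [bdd_iff, local_iff]
  refine ⟨?_, ?_⟩
  · intro s p hs hp
    have hs1 : 1 ≤ s := le_trans (by norm_num) hs
    refine ⟨fun h => ?_, ?_⟩
    · refine Pool.Agent.N248.RL.sph_glob (-(2 * Real.pi)) s hs1 p (by linarith) fun q hq F hF => ?_
      have h1 := h q hq (fun x => F x) ((memLp_restrict F s).1 hF)
      simp_rw [ft_restrict] at h1
      exact h1
    tfae_have 1 → 2 := by
      intro h a ha ha1 Ω _ P _ A hA
      exact Pool.Agent.N248.RL.sph_loc hn (-(2 * Real.pi)) hpi P A a ha ha1 (cubes_iff.1 hA) s hs p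
        hp.le h
    tfae_have 2 → 3 := by
      intro h ε hε
      have ha : 0 < min 1 (ε / 2) := lt_min one_pos (by linarith)
      refine ⟨min 1 (ε / 2), ha, min_le_left _ _, (min_le_right _ _).trans_lt (by linarith), ?_⟩
      obtain ⟨Ω, mΩ, P, hP, A, hA⟩ := Pool.Agent.N248.RL.exists_cubes n _ ha
      refine ⟨Ω, mΩ, P, hP, A, cubes_iff.2 hA, ?_⟩
      filter_upwards [h _ ha (min_le_left _ _) Ω P A (cubes_iff.2 hA)] with ω hω
      refine hω p ?_
      have : 0 < min 1 (ε / 2) * (p - 2) := mul_pos ha (by linarith)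
      linarith
    tfae_have 3 → 1 := by
      intro h ε hε
      obtain ⟨a, ha, ha1, haε, Ω, mΩ, P, hP, A, hA, hb⟩ := h ε hε
      obtain ⟨C, hC0, hC⟩ := Pool.Agent.N248.RL.sph_conv (-(2 * Real.pi)) P A a ha
        (cubes_iff.1 hA) s hs1 p (by linarith) hb
      refine ⟨C, hC0, fun R hR f hf => (hC R hR f hf).trans (mul_le_mul' ?_ le_rfl)⟩
      refine ENNReal.ofReal_le_ofReal (mul_le_mul_of_nonneg_left ?_ hC0)
      exact Real.rpow_le_rpow_of_exponent_le hR haε.le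
    tfae_finish
  · intro a ha ha1 Ω _ P _ A hA
    have hRC := cubes_iff.1 hA
    filter_upwards [sph_two hn (-(2 * Real.pi)) hpi P A a ha ha1 hRC,
      not_sph_two hn (-(2 * Real.pi)) P A a ha ha1 hRC,
      not_sph_top hn (-(2 * Real.pi)) hpi P A a ha ha1 hRC] with ω h1 h2 h3
    refine ⟨fun s q hs hq => h1 s hs q ?_, fun q hq0 hq => h2 q hq0 ?_, fun q hq0 hq => ?_⟩
    · have e1 : (2 + 4 / ((n : ℝ) - 1)) - a * (4 / ((n : ℝ) - 1)) =
          (2 * (n + 1) - 4 * a) / (n - 1) := by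
        field_simp
        ring
      rw [e1]
      exact hq
    · rw [lt_div_iff₀ hn1] at hq
      linarith
    · rw [lt_div_iff₀ hn1] at hq
      have h := h3 q hq0 (by linarith)
      have h2 : ∀ ξ, ft (fun _ => 1) ξ =
          sF (-(2 * Real.pi)) (fun _ : EuclideanSpace ℝ (Fin n) => 1) ξ :=
        fun ξ => ft_restrict (fun _ => 1) ξ
      simp_rw [h2]
      exact h

end Pool.Agent.Results.MP_6cbfb8_an.RandomRegions
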